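import Pool.Agent.X329.Helly.Main

/-!
# The Helly dimension of a diagonalizable group is at most one plus the rank of its character group

Let `K` be an algebraically closed field of any characteristic and `G` a diagonalizable group over
`K`, a Zariski closed subgroup of the diagonal group `(Kˣ)^N`. Then `κ(G) ≤ 1 + rk(X(G))`.

The proof: the closed cosets `g H` in `G` correspond to the homomorphisms `χ ↦ χ g` from subgroups
`ann H` of `X(G)` to `Kˣ`, and the points of `G` to the homomorphisms from `X(G)` to `Kˣ`. Since `Kˣ`
is divisible, finitely many cosets have a common point if and only if the corresponding homomorphisms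
agree on all relations `∑ a i = 0`, `a i ∈ ann (H i)`. The relations are generated by those which
involve at most `r + 1` of the subgroups, `r = rk(X(G))`: for every prime `p`, among any `r + 1`
elements of `X(G)` there is a relation whose coefficients are not all divisible by `p`, and so a
multiple by an integer prime to `p` of any longer relation is a sum of shorter relations.
-/

set_option autoImplicit false

namespace Pool.Agent.Results.MP_baf67b_al.HellyDimension

open Pool.Agent.X329.Helly

/-- **Helly dimension of diagonalizable groups.** Let `K` be an algebraically closed field and `G` a
Zariski closed subgroup of `(Kˣ)^N`. The Helly dimension `κ(G)` is at most `1 + rk(X(G))`, where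
`rk(X(G))` is the minimal number of generators of the group `X(G)` of the morphisms of algebraic groups
`G → Kˣ`. (The last two statements show that the infima which define `κ(G)` and `rk(X(G))` are infima of
nonempty sets: whenever finitely many closed cosets in `G` have empty intersection, already at most
`1 + rk(X(G))` of them do, and `X(G)` has a set of `rk(X(G))` generators.) -/
theorem result (K : Type) [Field K] [IsAlgClosed K] (N : ℕ) (G : Subgroup (Diag K N))
    (hG : ZariskiClosed (G : Set (Diag K N))) :
    kappa G ≤ 1 + rk (X G) ∧ HellyProp G (1 + rk (X G)) ∧
      ∃ S : Finset (X G), S.card = rk (X G) ∧ Subgroup.closure (S : Set (X G)) = ⊤ := by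
  obtain ⟨S, h1, h2⟩ := rk_mem G
  have h3 : HellyProp G (1 + rk (X G)) := h1 ▸ helly hG S h2
  exact ⟨Nat.sInf_le ⟨by omega, h3⟩, h3, S, h1, h2⟩

end Pool.Agent.Results.MP_baf67b_al.HellyDimension
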